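import Mathlib
import Pool.Agent.Work.MP_6f8877_nt.H8.Main
import Pool.Agent.Work.MP_6f8877_nt.H8.StepC

set_option autoImplicit false

/-!
# The order of growth in the class of 2-adic digit sign choices

Every sign choice in which the sign of `x^(j k)` is minus one to the number of binary digits `1`
of `j` at the marked positions, where the set of marked positions may depend on the 2-adic
valuation of `k`, has coefficients larger than `exp(log n * log log n / 50)` infinitely often; for
the positions `0, 2, 6, 14, …` they are at most `exp((log log n + 2)(log n + 10))`.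
-/

namespace Pool.Agent.Results.MP_6f8877_nt.LogLogOptimal

/-- The sign `ε_{k,j}` of the marking `M`: minus one to the number of positions `b` at which `j`
has the binary digit `1` and `M (v₂ k) b` is true (`v₂ k` is the exponent of `2` in `k`). -/
def sgn (M : ℕ → ℕ → Bool) (k j : ℕ) : ℤ :=
  (-1) ^ ((Finset.range j).filter (fun b => j.testBit b && M (padicValNat 2 k) b)).card

/-- The coefficient `a_ε(n)` for `ε = sgn M`. -/
def a (M : ℕ → ℕ → Bool) (n : ℕ) : ℤ :=
  ∑ p : Nat.Partition n, ∏ k ∈ p.parts.toFinset, sgn M k (p.parts.count k)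

lemma upper : ∃ M : ℕ → ℕ → Bool, (∀ v b, M v b = true ↔ ∃ t : ℕ, b + 2 = 2 ^ (t + 1)) ∧
    ∀ n : ℕ, 3 ≤ n →
      |(a M n : ℝ)| ≤ Real.exp ((Real.log (Real.log n) + 2) * (Real.log n + 10)) := by
  classical
  set M : ℕ → ℕ → Bool := fun _ b => decide (b ∈ Set.range Pool.MP_6f8877_nt.H8.b) with hM
  refine ⟨M, ?_, ?_⟩
  · intro v b
    simp only [hM, decide_eq_true_eq, Set.mem_range]
    constructor
    · rintro ⟨t, rfl⟩
      refine ⟨t, ?_⟩
      have : 2 ≤ 2 ^ (t + 1) := by
        have := Nat.one_le_two_pow (n := t)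
        rw [pow_succ]; omega
      unfold Pool.MP_6f8877_nt.H8.b
      omega
    · rintro ⟨t, ht⟩
      refine ⟨t, ?_⟩
      unfold Pool.MP_6f8877_nt.H8.b
      omega
  · intro n hn
    have h := Pool.MP_6f8877_nt.H8.main2 n hn
    have e : a M n = Pool.MP_6f8877_nt.H8.a n := by
      unfold a Pool.MP_6f8877_nt.H8.a
      apply Finset.sum_congr rfl
      intro p _
      apply Finset.prod_congr rfl
      intro k _
      have h1 : sgn M k (p.parts.count k) = Pool.MP_6f8877_nt.H8.cls M k (p.parts.count k) := rfl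
      rw [h1, Pool.MP_6f8877_nt.H8.cls_eq_dB M k (B := p.parts.count k) Nat.lt_two_pow_self,
        Pool.MP_6f8877_nt.H8.eps_eq_epsB (B := p.parts.count k) Nat.lt_two_pow_self]
      unfold Pool.MP_6f8877_nt.H8.dB Pool.MP_6f8877_nt.H8.epsB
      apply Finset.prod_congr rfl
      intro s _
      have h2 : Pool.MP_6f8877_nt.H8.dl (M (padicValNat 2 k)) s = Pool.MP_6f8877_nt.H8.del s := by
        unfold Pool.MP_6f8877_nt.H8.dl Pool.MP_6f8877_nt.H8.del
        simp only [hM, decide_eq_true_eq]
      rw [h2]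
    rw [e]
    exact h

/-- Lower bound for the whole class, and an upper bound of the same order for one member. -/
theorem result :
    (∀ (M : ℕ → ℕ → Bool) (k j : ℕ), sgn M k j = 1 ∨ sgn M k j = -1) ∧
    (∀ (M : ℕ → ℕ → Bool) (N : ℕ), ∃ n : ℕ, N ≤ n ∧
      Real.exp (1 / 50 * Real.log n * Real.log (Real.log n)) < |(a M n : ℝ)|) ∧
    ∃ M : ℕ → ℕ → Bool, (∀ v b, M v b = true ↔ ∃ t : ℕ, b + 2 = 2 ^ (t + 1)) ∧
      ∀ n : ℕ, 3 ≤ n →
        |(a M n : ℝ)| ≤ Real.exp ((Real.log (Real.log n) + 2) * (Real.log n + 10)) := by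
  refine ⟨Pool.MP_6f8877_nt.H8.cls_eq, fun M N => ?_, upper⟩
  by_contra hc
  push Not at hc
  exact Pool.MP_6f8877_nt.H8.not_slow M (n₀ := N + 3) (by omega)
    (fun n hn => hc n (by omega))

end Pool.Agent.Results.MP_6f8877_nt.LogLogOptimal
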