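import Mathlib
import Pool.Agent.Work.MP_6f8877_nt.EP6

/-!
Sign choices whose array is eventually periodic in both directions: the coefficients have the
maximal order of growth.
-/

set_option autoImplicit false

namespace Pool.Agent.Results.MP_6f8877_nt.PeriodicArrays

/-- The coefficient of `x ^ m` in the signed product. -/
def a (ε : ℕ → ℕ → ℤ) (m : ℕ) : ℤ :=
  ∑ p : Nat.Partition m, ∏ i ∈ p.parts.toFinset, ε i (p.parts.count i)

theorem result (ε : ℕ → ℕ → ℤ) (hε : ∀ k j, ε k j = 1 ∨ ε k j = -1)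
    (k₀ M : ℕ) (hM : 1 ≤ M) (hcol : ∀ k j, k₀ ≤ k → 1 ≤ j → ε (k + M) j = ε k j)
    (hrow : ∀ k, 1 ≤ k → ∃ T J : ℕ, 1 ≤ T ∧ ∀ j, J ≤ j → ε k (j + T) = ε k j) :
    ∃ c : ℝ, 0 < c ∧ ∀ N : ℕ, ∃ m ≥ N, Real.exp (c * Real.sqrt m) ≤ |((a ε m : ℤ) : ℝ)| :=
  Pool.Agent.Work.MP_6f8877_nt.EP.growth_array hε hM hcol hrow

end Pool.Agent.Results.MP_6f8877_nt.PeriodicArrays
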