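import Mathlib
import Pool.Agent.Work.MP_6f8877_nt.Rows4

/-!
In a sign choice with all coefficients in `{-1, 0, 1}` rows with zeros in a smaller disc are rare,
and one of the first 42 rows is rarely repeated; in particular no sign choice all of whose columns
are periodic has this property.
-/

set_option autoImplicit false

namespace Pool.Agent.Results.MP_6f8877_nt.RecurrentRows

open Pool.Agent.Work.MP_6f8877_nt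

/-- The coefficient of `x ^ m` in the signed product. -/
def a (ε : ℕ → ℕ → ℤ) (m : ℕ) : ℤ :=
  ∑ p : Nat.Partition m, ∏ i ∈ p.parts.toFinset, ε i (p.parts.count i)

/-- `y` is a zero of the `k`-th row `1 + ∑ ε k j y ^ j`. -/
def IsRowZero (ε : ℕ → ℕ → ℤ) (k : ℕ) (y : ℂ) : Prop :=
  1 + ∑' j : ℕ, (ε k (j + 1) : ℂ) * y ^ (j + 1) = 0

theorem result (ε : ℕ → ℕ → ℤ) (hε : ∀ k j, ε k j = 1 ∨ ε k j = -1) :
    ((∀ m, |a ε m| ≤ 1) →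
      (∀ ρ : ℝ, 0 < ρ → ρ < 1 → ∀ K : ℕ, 1 ≤ K →
        (Set.ncard {k : ℕ | 1 ≤ k ∧ k ≤ K ∧ ∃ y : ℂ, ‖y‖ ≤ ρ ∧ IsRowZero ε k y} : ℝ) ≤
          2 / (-Real.log ρ) * Real.log (1 + 2 * K / (-Real.log ρ))) ∧
      ∃ k₀ : ℕ, 1 ≤ k₀ ∧ k₀ ≤ 42 ∧ ∃ (J : ℕ) (C : ℝ), ∀ K : ℕ, 2 ≤ K →
        (Set.ncard {k : ℕ | 1 ≤ k ∧ k ≤ K ∧ ∀ j, 1 ≤ j → j ≤ J → ε k j = ε k₀ j} : ℝ) ≤
          C * Real.log K) ∧
    ((∀ j, 1 ≤ j → ∃ T, 1 ≤ T ∧ ∀ k, 1 ≤ k → ε (k + T) j = ε k j) →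
      (∃ m, 2 ≤ |a ε m|) ∧
      ((∃ k : ℕ, 1 ≤ k ∧ ∃ y : ℂ, ‖y‖ < 1 ∧ IsRowZero ε k y) →
        ∃ c : ℝ, 0 < c ∧ ∀ N : ℕ, ∃ m ≥ N,
          Real.exp (c * Real.sqrt m) ≤ |((a ε m : ℤ) : ℝ)|)) := by
  refine ⟨fun hv => ⟨fun ρ hρ0 hρ1 K hK => ?_, ?_⟩, fun h => ⟨no_columns hε h, ?_⟩⟩
  · have hfin : {k : ℕ | 1 ≤ k ∧ k ≤ K ∧ ∃ y : ℂ, ‖y‖ ≤ ρ ∧ IsRowZero ε k y}.Finite :=
      (Set.finite_Icc 1 K).subset fun k hk => ⟨hk.1, hk.2.1⟩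
    rw [Set.ncard_eq_toFinset_card _ hfin]
    refine rare hε hv hρ0 hρ1 hK (fun k hk => ?_) fun k hk => ?_
    · have h := (Set.Finite.mem_toFinset hfin).1 hk
      exact Finset.mem_Icc.2 ⟨h.1, h.2.1⟩
    · exact ((Set.Finite.mem_toFinset hfin).1 hk).2.2
  · obtain ⟨k₀, h1, h2, J, C, h3⟩ := nonrecurrent hε hv
    refine ⟨k₀, h1, h2, J, C, fun K hK => ?_⟩
    have hfin : {k : ℕ | 1 ≤ k ∧ k ≤ K ∧ ∀ j, 1 ≤ j → j ≤ J → ε k j = ε k₀ j}.Finite :=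
      (Set.finite_Icc 1 K).subset fun k hk => ⟨hk.1, hk.2.1⟩
    rw [Set.ncard_eq_toFinset_card _ hfin]
    refine h3 K hK _ (fun k hk => ?_) fun k hk => ?_
    · have h := (Set.Finite.mem_toFinset hfin).1 hk
      exact Finset.mem_Icc.2 ⟨h.1, h.2.1⟩
    · exact ((Set.Finite.mem_toFinset hfin).1 hk).2.2
  · rintro ⟨k, hk, y, hy, hy0⟩
    exact growth_columns hε h ⟨k, hk, y, hy, hy0⟩

end Pool.Agent.Results.MP_6f8877_nt.RecurrentRows
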