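import Mathlib
import Pool.Agent.Work.MP_6f8877_nt.Core
import Pool.Agent.Work.MP_6f8877_nt.Prod

/-!
If a sign choice had all coefficients in `{-1, 0, 1}`, one of its first 42 rows would have a zero
well inside the unit disc.
-/

set_option autoImplicit false

namespace Pool.Agent.Results.MP_6f8877_nt.ZeroInDisc

open Pool.Agent.Work.MP_6f8877_nt

theorem result (ε : ℕ → ℕ → ℤ) (hε : ∀ n k, ε n k = 1 ∨ ε n k = -1)
    (h : ∀ m : ℕ, |∑ p : Nat.Partition m, ∏ i ∈ p.parts.toFinset, ε i (p.parts.count i)| ≤ 1) :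
    ∃ k : ℕ, 1 ≤ k ∧ k ≤ 42 ∧ ∃ y : ℂ, ‖y‖ < (123 / 125) ^ k ∧
      1 + ∑' j : ℕ, (ε k (j + 1) : ℂ) * y ^ (j + 1) = 0 := by
  set a : ℕ → ℤ := fun m => ∑ p : Nat.Partition m, ∏ i ∈ p.parts.toFinset, ε i (p.parts.count i)
    with ha
  have h0 : a 0 = 1 := by
    simp only [ha]
    rw [Fintype.sum_unique]
    rfl
  obtain ⟨z, hz, hz0⟩ := core (a := a) h0 h (fun n hn => coeff_parity ε hε n hn)
  set E : ℕ → ℕ → ℂ := fun i j => (ε i j : ℂ) with hE
  have hEn : ∀ i j, ‖E i j‖ ≤ 1 := by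
    intro i j
    simp only [hE]
    rcases hε i j with h1 | h1 <;> rw [h1] <;> simp
  have hco : ∀ n, PowerSeries.coeff n (Nat.Partition.genFun E) = (a n : ℂ) := by
    intro n
    rw [Nat.Partition.coeff_genFun]
    simp only [ha]
    push_cast
    rfl
  have hz1 : ‖z‖ < 1 := hz.trans (by norm_num)
  obtain ⟨i, hi⟩ := exists_row_zero hEn hz1 (by simpa only [hco] using hz0)
  have hzi : ‖z ^ (i + 1)‖ < (123 / 125) ^ (i + 1) := by
    rw [norm_pow]
    exact pow_lt_pow_left₀ hz (norm_nonneg z) (Nat.succ_ne_zero i)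
  refine ⟨i + 1, by omega, ?_, z ^ (i + 1), hzi, hi⟩
  -- zeros of a row have modulus at least `1/2`
  by_contra hlt
  push Not at hlt
  have hsmall : ‖z ^ (i + 1)‖ < 1 / 2 := by
    refine hzi.trans_le ((pow_le_pow_of_le_one (by norm_num) (by norm_num)
      (by omega : 43 ≤ i + 1)).trans ?_)
    norm_num
  set y := z ^ (i + 1) with hy
  have hy0 : 0 ≤ ‖y‖ := norm_nonneg y
  have hsum : HasSum (fun j : ℕ => ‖y‖ ^ (j + 1)) (‖y‖ / (1 - ‖y‖)) := by
    have h2 : (fun j : ℕ => ‖y‖ ^ (j + 1)) = fun j : ℕ => ‖y‖ * ‖y‖ ^ j := by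
      funext j; rw [pow_succ, mul_comm]
    rw [h2, div_eq_mul_inv]
    exact (hasSum_geometric_of_lt_one hy0 (by linarith)).mul_left _
  have hle : ‖∑' j : ℕ, E (i + 1) (j + 1) * y ^ (j + 1)‖ ≤ ‖y‖ / (1 - ‖y‖) := by
    refine tsum_of_norm_bounded hsum (fun j => ?_)
    rw [norm_mul, norm_pow]
    exact mul_le_of_le_one_left (by positivity) (hEn _ _)
  have h1 : ∑' j : ℕ, E (i + 1) (j + 1) * y ^ (j + 1) = -1 := by
    linear_combination hi
  rw [h1, norm_neg, norm_one, le_div_iff₀ (by linarith)] at hle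
  linarith

end Pool.Agent.Results.MP_6f8877_nt.ZeroInDisc
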